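import Mathlib

/-!
Basic definitions for the work on the free Malcev algebra and the identities of C7.
-/

namespace Pool.Agent.Hhelper8

universe u

/-- the number of occurrences of the letter `i` in a nonassociative word -/
def cnt {ι : Type*} [DecidableEq ι] (i : ι) : FreeMagma ι → ℕ
  | .of j => if j = i then 1 else 0
  | .mul a b => cnt i a + cnt i b

/-- a word is multilinear (in all letters of `ι`) if every letter occurs exactly once -/
def MLin {ι : Type*} [DecidableEq ι] (w : FreeMagma ι) : Prop := ∀ i, cnt i w = 1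

/-- value of a word for the (not necessarily associative) product `m` -/
def evW {ι V : Type*} (m : V → V → V) (v : ι → V) : FreeMagma ι → V
  | .of i => v i
  | .mul a b => m (evW m v a) (evW m v b)

/-- value of the nonassociative polynomial `f` (coefficients in `F`) in the `R`-module `V`
with product `m` -/
noncomputable def evP {ι F : Type*} (R : Type*) {V : Type*} [CommSemiring F] [CommRing R]
    [Algebra F R] [AddCommGroup V] [Module R V]
    (m : V → V → V) (f : FreeMagma ι →₀ F) (v : ι → V) : V :=
  f.sum fun w c => algebraMap F R c • evW m v w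

/-- A vector product algebra over the commutative ring `R`. -/
structure VPA (R V : Type*) [CommRing R] [AddCommGroup V] [Module R V] where
  mul : V →ₗ[R] V →ₗ[R] V
  form : V →ₗ[R] V →ₗ[R] R
  mul_self : ∀ x, mul x x = 0
  symm : ∀ x y, form x y = form y x
  inv : ∀ x y z, form (mul x y) z = form x (mul y z)
  vp : ∀ x y z, mul (mul z x) y + mul z (mul x y) + form x y • z
    = (2 : R) • form z y • x - form z x • y

/-- The product table of the 7-dimensional vector product algebra with basis
`e0 = u, e1 = v, e2 = uv, e3 = w, e4 = uw, e5 = vw, e6 = (uv)w`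
where `u, v, w` are orthogonal with norms `a, b, c` and `(uv, w) = 0`.
`tab a b c x y` is the product of the vectors `x, y : Fin 7 → R`. -/
def tab {R : Type*} [CommRing R] (a b c : R) (x y : Fin 7 → R) : Fin 7 → R :=
  ![b * (x 1 * y 2 - x 2 * y 1) + c * (x 3 * y 4 - x 4 * y 3) - b * c * (x 5 * y 6 - x 6 * y 5),
    -a * (x 0 * y 2 - x 2 * y 0) + c * (x 3 * y 5 - x 5 * y 3) + a * c * (x 4 * y 6 - x 6 * y 4),
    (x 0 * y 1 - x 1 * y 0) + c * (x 3 * y 6 - x 6 * y 3) - c * (x 4 * y 5 - x 5 * y 4),
    -a * (x 0 * y 4 - x 4 * y 0) - b * (x 1 * y 5 - x 5 * y 1) - a * b * (x 2 * y 6 - x 6 * y 2),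
    (x 0 * y 3 - x 3 * y 0) - b * (x 1 * y 6 - x 6 * y 1) + b * (x 2 * y 5 - x 5 * y 2),
    (x 1 * y 3 - x 3 * y 1) + a * (x 0 * y 6 - x 6 * y 0) - a * (x 2 * y 4 - x 4 * y 2),
    (x 2 * y 3 - x 3 * y 2) + (x 1 * y 4 - x 4 * y 1) - (x 0 * y 5 - x 5 * y 0)]

/-- the norm form of the table algebra -/
def tabForm {R : Type*} [CommRing R] (a b c : R) (x y : Fin 7 → R) : R :=
  a * (x 0 * y 0) + b * (x 1 * y 1) + a * b * (x 2 * y 2) + c * (x 3 * y 3)
    + a * c * (x 4 * y 4) + b * c * (x 5 * y 5) + a * b * c * (x 6 * y 6)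

set_option maxHeartbeats 4000000 in
/-- the table satisfies the vector product identity (sanity check) -/
theorem tab_vp {R : Type*} [CommRing R] (a b c : R) (x y z : Fin 7 → R) :
    tab a b c (tab a b c z x) y + tab a b c z (tab a b c x y) + tabForm a b c x y • z
      = (2 : R) • tabForm a b c z y • x - tabForm a b c z x • y := by
  funext i
  fin_cases i <;> simp [tab, tabForm, Matrix.vecHead, Matrix.vecTail] <;> ring

theorem tab_inv {R : Type*} [CommRing R] (a b c : R) (x y z : Fin 7 → R) :
    tabForm a b c (tab a b c x y) z = tabForm a b c x (tab a b c y z) := by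
  simp [tab, tabForm]; ring

theorem tab_self {R : Type*} [CommRing R] (a b c : R) (x : Fin 7 → R) :
    tab a b c x x = 0 := by
  funext i
  fin_cases i <;> simp [tab] <;> ring

/-- Goal of Part C (to be proved): a multilinear nonassociative polynomial over the field `F` of
characteristic 0 which vanishes on ONE table algebra `tab a0 b0 c0` over `F` with `a0 b0 c0 ≠ 0`
vanishes on every vector product algebra over every commutative `F`-algebra. -/
def PartC : Prop :=
  ∀ (F : Type u) [Field F] [CharZero F] (ι : Type) [Fintype ι] [DecidableEq ι]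
    (f : FreeMagma ι →₀ F) (_ : ∀ w ∈ f.support, MLin w)
    (a0 b0 c0 : F) (_ : a0 ≠ 0) (_ : b0 ≠ 0) (_ : c0 ≠ 0)
    (_ : ∀ v : ι → (Fin 7 → F), evP F (tab a0 b0 c0) f v = 0)
    (R V : Type u) [CommRing R] [Algebra F R] [AddCommGroup V] [Module R V]
    (A : VPA R V) (v : ι → V), evP R (fun x y => A.mul x y) f v = 0

end Pool.Agent.Hhelper8
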