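import Mathlib
import Pool.Agent.Hhelper8.Defs

/-!
Relatively free nonassociative algebras, the free Malcev algebra, the algebra C7, the
statement of the main theorem and the interfaces `PartA`, `PartB`.
-/

namespace Pool.Agent.Hhelper8

open FreeNonUnitalNonAssocAlgebra

universe u v w

/-! ### Products in nonassociative rings -/

section ops
variable {A : Type*} [NonUnitalNonAssocRing A]

/-- the Jacobian -/
def J (x y z : A) : A := (x * y) * z + (y * z) * x + (z * x) * y

/-- auxiliary element of degree four -/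
def S4 (a b c u : A) : A :=
  ((a * b) * c) * u - ((a * b) * u) * c + ((a * b) * (c * u) + (a * b) * (c * u))

/-- `P6 a b c u = 6 Φ(a,b,c) u` -/
def P6 (a b c u : A) : A := S4 a c b u + S4 a u b c - S4 a b c u

/-- the polarisation of `2 (P6 x y z w) w` -/
def f6 (x y z w v : A) : A := P6 x y z w * v + P6 x y z v * w

end ops

/-- The axioms of a Malcev ring. -/
structure IsMalcev (A : Type*) [NonUnitalNonAssocRing A] : Prop where
  mul_self : ∀ x : A, x * x = 0
  malcev : ∀ x y z : A, J x y (x * z) = J x y z * x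

/-- The algebras of the variety `V`: Malcev and `P6 x y z w * w = 0`. -/
structure IsV (A : Type*) [NonUnitalNonAssocRing A] : Prop extends IsMalcev A where
  f5 : ∀ x y z w : A, P6 x y z w * w = 0

/-! ### Quotient algebras -/

section quot

variable (F : Type u) [CommRing F] {L : Type v} [NonUnitalNonAssocRing L] [Module F L]

/-- The algebra congruence generated by the relation `E`. -/
inductive Cong (E : L → L → Prop) : L → L → Prop
  | rel {a b : L} : E a b → Cong E a b
  | smul (t : F) {a b : L} : Cong E a b → Cong E (t • a) (t • b)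
  | add_right {a b : L} (c : L) : Cong E a b → Cong E (a + c) (b + c)
  | mul_left (a : L) {b c : L} : Cong E b c → Cong E (a * b) (a * c)
  | mul_right {a b : L} (c : L) : Cong E a b → Cong E (a * c) (b * c)

variable {F}

theorem Cong.addLeft {E : L → L → Prop} (a : L) {b c : L} (h : Cong F E b c) :
    Cong F E (a + b) (a + c) := by
  rw [add_comm _ b, add_comm _ c]; exact h.add_right _

theorem Cong.neg {E : L → L → Prop} {a b : L} (h : Cong F E a b) : Cong F E (-a) (-b) := by
  simpa only [neg_one_smul] using h.smul (-1)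

theorem Cong.subLeft {E : L → L → Prop} (a : L) {b c : L} (h : Cong F E b c) :
    Cong F E (a - b) (a - c) := by
  simpa only [sub_eq_add_neg] using h.neg.addLeft a

theorem Cong.subRight {E : L → L → Prop} {a b : L} (c : L) (h : Cong F E a b) :
    Cong F E (a - c) (b - c) := by
  simpa only [sub_eq_add_neg] using h.add_right (-c)

variable (F)

/-- The quotient of the algebra `L` by the congruence generated by `E`. -/
def QAlg (E : L → L → Prop) : Type v := Quot (Cong F E)

namespace QAlg

variable (E : L → L → Prop)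

instance : Zero (QAlg F E) where zero := Quot.mk _ 0

instance : Add (QAlg F E) where
  add := Quot.map₂ (· + ·) (fun _ _ _ => Cong.addLeft _) fun _ _ _ => Cong.add_right _

instance : Neg (QAlg F E) where neg := Quot.map Neg.neg fun _ _ => Cong.neg

instance : Sub (QAlg F E) where
  sub := Quot.map₂ Sub.sub (fun _ _ _ => Cong.subLeft _) fun _ _ _ => Cong.subRight _

instance : SMul F (QAlg F E) where
  smul t := Quot.map (t • ·) fun _ _ h => h.smul t

instance : SMul ℕ (QAlg F E) where
  smul n := Quot.map (n • ·) fun a b h => by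
    have := h.smul (n : F)
    simpa only [Nat.cast_smul_eq_nsmul] using this

instance : SMul ℤ (QAlg F E) where
  smul n := Quot.map (n • ·) fun a b h => by
    have := h.smul (n : F)
    simpa only [Int.cast_smul_eq_zsmul] using this

instance : AddCommGroup (QAlg F E) :=
  Function.Surjective.addCommGroup (Quot.mk _) Quot.mk_surjective rfl (fun _ _ => rfl)
    (fun _ => rfl) (fun _ _ => rfl) (fun _ _ => rfl) fun _ _ => rfl

instance : Module F (QAlg F E) :=
  Function.Surjective.module F ⟨⟨Quot.mk (Cong F E), rfl⟩, fun _ _ => rfl⟩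
    Quot.mk_surjective (fun _ _ => rfl)

instance : NonUnitalNonAssocRing (QAlg F E) where
  mul := Quot.map₂ (· * ·) (fun _ _ _ => Cong.mul_left _) fun _ _ _ => Cong.mul_right _
  left_distrib := by rintro ⟨a⟩ ⟨b⟩ ⟨c⟩; exact congrArg (Quot.mk _) (mul_add a b c)
  right_distrib := by rintro ⟨a⟩ ⟨b⟩ ⟨c⟩; exact congrArg (Quot.mk _) (add_mul a b c)
  zero_mul := by rintro ⟨a⟩; exact congrArg (Quot.mk _) (zero_mul a)
  mul_zero := by rintro ⟨a⟩; exact congrArg (Quot.mk _) (mul_zero a)

instance [IsScalarTower F L L] : IsScalarTower F (QAlg F E) (QAlg F E) where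
  smul_assoc := by rintro t ⟨a⟩ ⟨b⟩; exact congrArg (Quot.mk _) (smul_mul_assoc t a b)

instance [SMulCommClass F L L] : SMulCommClass F (QAlg F E) (QAlg F E) where
  smul_comm := by
    rintro t ⟨a⟩ ⟨b⟩; exact congrArg (Quot.mk _) (mul_smul_comm t a b).symm

/-- The quotient map. -/
def mk : L →ₙₐ[F] QAlg F E where
  toFun := Quot.mk (Cong F E)
  map_smul' _ _ := rfl
  map_zero' := rfl
  map_add' _ _ := rfl
  map_mul' _ _ := rfl

theorem mk_surjective : Function.Surjective (mk F E) := Quot.mk_surjective

theorem mk_eq {a b : L} (h : Cong F E a b) : mk F E a = mk F E b := Quot.sound h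

variable {F E}

theorem hom_spec {B : Type w} [NonUnitalNonAssocRing B] [Module F B]
    (φ : L →ₙₐ[F] B) (h : ∀ a b, E a b → φ a = φ b) (a b : L) (hab : Cong F E a b) :
    φ a = φ b := by
  induction hab with
  | rel h' => exact h _ _ h'
  | smul t _ ih => rw [map_smul, map_smul, ih]
  | add_right c _ ih => rw [map_add, map_add, ih]
  | mul_left c _ ih => rw [map_mul, map_mul, ih]
  | mul_right c _ ih => rw [map_mul, map_mul, ih]

/-- The universal property of the quotient. -/
def desc {B : Type w} [NonUnitalNonAssocRing B] [Module F B]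
    (φ : L →ₙₐ[F] B) (h : ∀ a b, E a b → φ a = φ b) : QAlg F E →ₙₐ[F] B where
  toFun c := Quot.liftOn c φ (hom_spec φ h)
  map_smul' := by rintro t ⟨a⟩; exact map_smul φ t a
  map_zero' := map_zero φ
  map_add' := by rintro ⟨a⟩ ⟨b⟩; exact map_add φ a b
  map_mul' := by rintro ⟨a⟩ ⟨b⟩; exact map_mul φ a b

@[simp]
theorem desc_mk {B : Type w} [NonUnitalNonAssocRing B] [Module F B]
    (φ : L →ₙₐ[F] B) (h : ∀ a b, E a b → φ a = φ b) (a : L) : desc φ h (mk F E a) = φ a := rfl

theorem hom_ext' {B : Type w} [NonUnitalNonAssocRing B] [Module F B]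
    (φ ψ : QAlg F E →ₙₐ[F] B) (h : ∀ a, φ (mk F E a) = ψ (mk F E a)) : φ = ψ := by
  ext c
  obtain ⟨a, rfl⟩ := mk_surjective F E c
  exact h a

end QAlg

end quot

/-! ### The free Malcev algebra and the free algebra of the variety `V` -/

section free

variable (F : Type u) [CommRing F] (X : Type v)

/-- The defining relations of the free Malcev algebra. -/
inductive MalcevRel : FreeNonUnitalNonAssocAlgebra F X → FreeNonUnitalNonAssocAlgebra F X → Prop
  | mul_self (a) : MalcevRel (a * a) 0
  | malcev (a b c) : MalcevRel (J a b (a * c)) (J a b c * a)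

/-- The defining relations of the free algebra of the variety `V`. -/
inductive VRel : FreeNonUnitalNonAssocAlgebra F X → FreeNonUnitalNonAssocAlgebra F X → Prop
  | mul_self (a) : VRel (a * a) 0
  | malcev (a b c) : VRel (J a b (a * c)) (J a b c * a)
  | f5 (x y z t) : VRel (P6 x y z t * t) 0

/-- The free Malcev algebra over `F` on the set `X`. -/
abbrev FreeMalcev : Type (max u v) := QAlg F (MalcevRel F X)

/-- The free algebra of the variety `V` over `F` on the set `X`. -/
abbrev FreeV : Type (max u v) := QAlg F (VRel F X)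

end free

section maps

variable {A B : Type*} [NonUnitalNonAssocRing A] [NonUnitalNonAssocRing B]
  {F : Type*} [CommRing F] [Module F A] [Module F B]

theorem map_J (φ : A →ₙₐ[F] B) (x y z : A) : φ (J x y z) = J (φ x) (φ y) (φ z) := by
  simp [J]

theorem map_S4 (φ : A →ₙₐ[F] B) (x y z t : A) : φ (S4 x y z t) = S4 (φ x) (φ y) (φ z) (φ t) := by
  simp [S4]

theorem map_P6 (φ : A →ₙₐ[F] B) (x y z t : A) : φ (P6 x y z t) = P6 (φ x) (φ y) (φ z) (φ t) := by
  simp [P6, map_S4]

theorem map_f6 (φ : A →ₙₐ[F] B) (x y z t s : A) :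
    φ (f6 x y z t s) = f6 (φ x) (φ y) (φ z) (φ t) (φ s) := by
  simp [f6, map_P6]

end maps

section univ

variable {F : Type u} [CommRing F] {X : Type v}

theorem freeMalcev_isMalcev : IsMalcev (FreeMalcev F X) where
  mul_self x := by
    obtain ⟨a, rfl⟩ := QAlg.mk_surjective F (MalcevRel F X) x
    rw [← map_mul, ← map_zero (QAlg.mk F (MalcevRel F X))]
    exact QAlg.mk_eq F _ (Cong.rel (MalcevRel.mul_self a))
  malcev x y z := by
    obtain ⟨a, rfl⟩ := QAlg.mk_surjective F (MalcevRel F X) x
    obtain ⟨b, rfl⟩ := QAlg.mk_surjective F (MalcevRel F X) y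
    obtain ⟨c, rfl⟩ := QAlg.mk_surjective F (MalcevRel F X) z
    rw [← map_mul, ← map_J, ← map_J, ← map_mul]
    exact QAlg.mk_eq F _ (Cong.rel (MalcevRel.malcev a b c))

theorem freeV_isV : IsV (FreeV F X) where
  mul_self x := by
    obtain ⟨a, rfl⟩ := QAlg.mk_surjective F (VRel F X) x
    rw [← map_mul, ← map_zero (QAlg.mk F (VRel F X))]
    exact QAlg.mk_eq F _ (Cong.rel (VRel.mul_self a))
  malcev x y z := by
    obtain ⟨a, rfl⟩ := QAlg.mk_surjective F (VRel F X) x
    obtain ⟨b, rfl⟩ := QAlg.mk_surjective F (VRel F X) y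
    obtain ⟨c, rfl⟩ := QAlg.mk_surjective F (VRel F X) z
    rw [← map_mul, ← map_J, ← map_J, ← map_mul]
    exact QAlg.mk_eq F _ (Cong.rel (VRel.malcev a b c))
  f5 x y z t := by
    obtain ⟨a, rfl⟩ := QAlg.mk_surjective F (VRel F X) x
    obtain ⟨b, rfl⟩ := QAlg.mk_surjective F (VRel F X) y
    obtain ⟨c, rfl⟩ := QAlg.mk_surjective F (VRel F X) z
    obtain ⟨d, rfl⟩ := QAlg.mk_surjective F (VRel F X) t
    rw [← map_P6, ← map_mul, ← map_zero (QAlg.mk F (VRel F X))]
    exact QAlg.mk_eq F _ (Cong.rel (VRel.f5 a b c d))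

/-- The free generators of the free Malcev algebra. -/
noncomputable def FreeMalcev.of (x : X) : FreeMalcev F X :=
  QAlg.mk F (MalcevRel F X) (FreeNonUnitalNonAssocAlgebra.of F x)

/-- The free generators of the free algebra of the variety `V`. -/
noncomputable def FreeV.of (x : X) : FreeV F X :=
  QAlg.mk F (VRel F X) (FreeNonUnitalNonAssocAlgebra.of F x)

variable {B : Type w} [NonUnitalNonAssocRing B] [Module F B] [IsScalarTower F B B]
  [SMulCommClass F B B]

/-- The homomorphism from the free Malcev algebra to a Malcev algebra given by a map of the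
generators. -/
noncomputable def FreeMalcev.lift (hB : IsMalcev B) (f : X → B) : FreeMalcev F X →ₙₐ[F] B :=
  QAlg.desc (FreeNonUnitalNonAssocAlgebra.lift F f) (by
    intro a b hab
    cases hab with
    | mul_self a => rw [map_mul, map_zero, hB.mul_self]
    | malcev a b c => rw [map_J, map_mul, map_mul, map_J, hB.malcev])

theorem FreeMalcev.lift_of (hB : IsMalcev B) (f : X → B) (x : X) :
    FreeMalcev.lift (F := F) hB f (FreeMalcev.of x) = f x := by
  simp [FreeMalcev.lift, FreeMalcev.of]

theorem FreeMalcev.hom_ext {φ ψ : FreeMalcev F X →ₙₐ[F] B}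
    (h : ∀ x, φ (FreeMalcev.of x) = ψ (FreeMalcev.of x)) : φ = ψ := by
  apply QAlg.hom_ext'
  have : φ.comp (QAlg.mk F (MalcevRel F X)) = ψ.comp (QAlg.mk F (MalcevRel F X)) :=
    FreeNonUnitalNonAssocAlgebra.hom_ext F h
  intro a
  exact DFunLike.congr_fun this a

/-- The homomorphism from the free algebra of `V` to an algebra of `V` given by a map of the
generators. -/
noncomputable def FreeV.lift (hB : IsV B) (f : X → B) : FreeV F X →ₙₐ[F] B :=
  QAlg.desc (FreeNonUnitalNonAssocAlgebra.lift F f) (by
    intro a b hab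
    cases hab with
    | mul_self a => rw [map_mul, map_zero, hB.mul_self]
    | malcev a b c => rw [map_J, map_mul, map_mul, map_J, hB.malcev]
    | f5 a b c d => rw [map_mul, map_zero, map_P6, hB.f5])

theorem FreeV.lift_of (hB : IsV B) (f : X → B) (x : X) :
    FreeV.lift (F := F) hB f (FreeV.of x) = f x := by
  simp [FreeV.lift, FreeV.of]

theorem FreeV.hom_ext {φ ψ : FreeV F X →ₙₐ[F] B}
    (h : ∀ x, φ (FreeV.of x) = ψ (FreeV.of x)) : φ = ψ := by
  apply QAlg.hom_ext'
  have : φ.comp (QAlg.mk F (VRel F X)) = ψ.comp (QAlg.mk F (VRel F X)) :=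
    FreeNonUnitalNonAssocAlgebra.hom_ext F h
  intro a
  exact DFunLike.congr_fun this a

end univ

/-! ### The octonions and the algebra C7 -/

section oct

variable (F : Type u) [Field F]

/-- The split Cayley-Dickson (octonion) algebra over `F`: the Cayley-Dickson double of the
algebra of 2 x 2 matrices, whose canonical involution is the adjugate. As a vector space it
consists of the pairs of 2 x 2 matrices. -/
abbrev Oct : Type u := Matrix (Fin 2) (Fin 2) F × Matrix (Fin 2) (Fin 2) F

variable {F}

/-- The Cayley-Dickson product `(a,b)(c,d) = (a c + d' b, d a + b c')` of octonions. -/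
def omul (x y : Oct F) : Oct F :=
  (x.1 * y.1 + y.2.adjugate * x.2, y.2 * x.1 + x.2 * y.1.adjugate)

variable (F)

/-- The trace `t(a)` of an octonion: `a + a' = t(a) 1`. -/
def otrace : Oct F →ₗ[F] F := (Matrix.traceLinearMap (Fin 2) F F).comp (LinearMap.fst F _ _)

/-- The space `C7` of octonions of trace zero; it is a Malcev algebra with the commutator
product `xy - yx`. -/
def C7 : Submodule F (Oct F) := LinearMap.ker (otrace F)

variable {F}

/-- A linear map `φ` from an algebra `A` to `C7` is an algebra homomorphism for the commutator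
product on `C7`. -/
def IsHomC7 {A : Type w} [NonUnitalNonAssocRing A] [Module F A] (φ : A →ₗ[F] C7 F) : Prop :=
  ∀ a b : A, (φ (a * b) : Oct F) = omul (φ a) (φ b) - omul (φ b) (φ a)

variable (F)

/-- The ideal `T(C7)` of identities of `C7` in the free Malcev algebra: the elements which
are mapped to zero by all algebra homomorphisms from the free Malcev algebra to `C7`. -/
def T7 (X : Type v) : Set (FreeMalcev F X) :=
  {f | ∀ φ : FreeMalcev F X →ₗ[F] C7 F, IsHomC7 φ → φ f = 0}

end oct

end Pool.Agent.Hhelper8
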