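import Mathlib
import Pool.Agent.Hhelper8.Defs
import Pool.Agent.Hhelper8.Free

/-!
Interfaces (as propositions) of the parts of the proof that the ideal of identities of C7 in the
free Malcev algebra is a Lie ideal.
-/

namespace Pool.Agent.Hhelper8

universe u v w

/-! ### Main statement and Part A -/

/-- The main theorem. -/
def MainStatement : Prop :=
  ∀ (F : Type u) [Field F] [CharZero F] (X : Type v) (f g h : FreeMalcev F X),
    f ∈ T7 F X → g ∈ T7 F X → h ∈ T7 F X → J f g h = 0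

/-- Part A: identities of Malcev algebras. -/
def PartA : Prop :=
  ∀ (A : Type u) [NonUnitalNonAssocRing A] [IsAddTorsionFree A], IsMalcev A →
    (∀ x y z w r : A, f6 x y z w w * r = f6 (x * r) y z w w + f6 x (y * r) z w w
      + f6 x y (z * r) w w + f6 x y z (w * r) w + f6 x y z w (w * r)) ∧
    (∀ x y z w a b c d : A, J (f6 x y z w w) (a * b) (c * d) = 0)

/-! ### Identities of the variety `V` -/

section ops
variable {A : Type*} [NonUnitalNonAssocRing A]

/-- six times `θ(x,y)(ab)` -/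
def th6 (x y a b : A) : A :=
  (2 : ℤ) • P6 a b y x - P6 a b x y - (6 : ℤ) • (((a * b) * x) * y) - (6 : ℤ) • ((a * b) * (x * y))

/-- `(ua)b + u(ab)` -/
def G2 (u a b : A) : A := (u * a) * b + u * (a * b)

/-- six times `⟨(up)q + u(pq), y⟩ z` -/
def brG (u p q y z : A) : A := P6 (u * p) q y z + P6 u (p * q) y z

/-- six times `θ(x,y)((up)q + u(pq))` -/
def thG (u x y p q : A) : A := th6 x y (u * p) q + th6 x y u (p * q)

/-- six times `⟨S4 a b c u, y⟩ z` -/
def brS4 (a b c u y z : A) : A :=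
  P6 ((a * b) * c) u y z - P6 ((a * b) * u) c y z + (2 : ℤ) • P6 (a * b) (c * u) y z

/-- six times `⟨P6 a b c u, y⟩ z` -/
def brP6 (a b c u y z : A) : A := brS4 a c b u y z + brS4 a u b c y z - brS4 a b c u y z

end ops

/-- The identities of the algebras of the variety `V` used in Part B. -/
structure VIds (A : Type*) [NonUnitalNonAssocRing A] : Prop extends IsV A where
  ida : ∀ a b c u v : A, P6 a b c (u * v) = P6 a b c u * v
  idb : ∀ a b c u : A, P6 b a c u = -P6 a b c u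
  idc : ∀ a b c d u : A, P6 (a * b) c d u = P6 a b (c * d) u
  idf : ∀ x y a b z : A, th6 x y (a * b) z = th6 x y a b * z
  idk : ∀ d e c a b : A, th6 (d * e) c a b = P6 d e c (a * b)
  idl : ∀ z x y b : A, (6 : ℤ) • (((z * x) * y + z * (x * y)) * b) + th6 x y z b
    - (2 : ℤ) • th6 z y x b + th6 z x y b = 0
  idn1 : ∀ u x y c : A, (2 : ℤ) • ((2 : ℤ) • (G2 u x c * y) + G2 u c x * y) + th6 x c u y
    = (2 : ℤ) • ((2 : ℤ) • G2 u (x * y) c + G2 u c (x * y)) + P6 x y c u
  idn2 : ∀ u x c y z : A, (2 : ℤ) • brG u x c y z + brG u c x y z + (2 : ℤ) • thG u x c z y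
    + thG u x c y z - (2 : ℤ) • thG u x y z c - thG u x y c z
    + (P6 (x * y) c z u - P6 (x * c) y z u + (2 : ℤ) • P6 x (y * c) z u) = 0
  idn3 : ∀ u b c x : A, P6 u b c x
    = (2 : ℤ) • ((2 : ℤ) • G2 u x (b * c) + G2 u (b * c) x) + P6 b c x u
  idF3a : ∀ x y z t c u : A, P6 (x * z) (y * t) c u = P6 ((x * y) * z) t c u
    + P6 ((y * z) * t) x c u + P6 ((z * t) * x) y c u + P6 ((t * x) * y) z c u
  idh0 : ∀ a b c x y z : A, brP6 a b c x y z = brP6 a b c y x z

/-- Part V: the identities hold in all (torsion free) algebras of `V`. -/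
def PartV : Prop :=
  ∀ (A : Type u) [NonUnitalNonAssocRing A] [IsAddTorsionFree A], IsV A → VIds A

/-! ### Part B -/

/-- Part B1: in the free algebra of `V` the bracket `6⟨ab,c⟩x = P6 a b c x` is well defined. -/
def PartB1 : Prop :=
  ∀ (F : Type u) [Field F] [CharZero F] (X : Type v), VIds (FreeV F X) →
    ∃ pr : FreeV F X →ₗ[F] FreeV F X →ₗ[F] FreeV F X →ₗ[F] FreeV F X,
      ∀ a b c x : FreeV F X, (6 : F) • pr (a * b) c x = P6 a b c x

/-- Part B4: a multilinear identity `f` of C7 satisfies `f(x) = α(x_i)` where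
`α` is a sum of maps `⟨ab,t⟩` which vanishes on all products. -/
def PartB4 : Prop :=
  ∀ (F : Type u) [Field F] [CharZero F] (G : Type u) [NonUnitalNonAssocRing G] [Module F G]
    [IsScalarTower F G G] [SMulCommClass F G G], VIds G →
    ∀ pr : G →ₗ[F] G →ₗ[F] G →ₗ[F] G, (∀ a b c x : G, (6 : F) • pr (a * b) c x = P6 a b c x) →
    ∀ (ι : Type) [Fintype ι] [DecidableEq ι] (f : FreeMagma ι →₀ F),
    (∀ w ∈ f.support, MLin w) → 2 ≤ Fintype.card ι →
    ∀ a0 b0 c0 : F, a0 ≠ 0 → b0 ≠ 0 → c0 ≠ 0 →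
    (∀ v : ι → (Fin 7 → F), evP F (tab a0 b0 c0) f v = 0) →
    ∀ (x : ι → G) (i : ι), ∃ α ∈ Submodule.span F {β : G →ₗ[F] G | ∃ a b t : G, β = pr (a * b) t},
      α (x i) = evP F (fun p q => p * q) f x ∧ ∀ p q : G, α (p * q) = 0

/-- Part B: a multilinear identity of C7 holds in all algebras of `V`. -/
def PartB : Prop :=
  ∀ (F : Type u) [Field F] [CharZero F] (ι : Type) [Fintype ι] [DecidableEq ι]
    (f : FreeMagma ι →₀ F), (∀ w ∈ f.support, MLin w) →
    ∀ a0 b0 c0 : F, a0 ≠ 0 → b0 ≠ 0 → c0 ≠ 0 →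
    (∀ v : ι → (Fin 7 → F), evP F (tab a0 b0 c0) f v = 0) →
    ∀ (B : Type v) [NonUnitalNonAssocRing B] [Module F B] [IsScalarTower F B B]
      [SMulCommClass F B B], IsV B →
    ∀ x : ι → B, evP F (fun p q => p * q) f x = 0

end Pool.Agent.Hhelper8
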