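import Mathlib
import Pool.Agent.Hhelper8.Free

/-!
The definitions used in the statement of the main theorem of MP_10183c_al: the split octonions,
the Malcev algebra C7, the free Malcev algebra and the ideal of identities of C7 in it.
-/

namespace Pool.Agent.Hhelper8

universe u v

/-! ### The split octonions -/

/-- The split Cayley-Dickson (octonion) algebra over `F`: the Cayley-Dickson double of the
algebra of 2 x 2 matrices. Its elements are the pairs `(a, b)` of 2 x 2 matrices. -/
@[ext]
structure Octonion (F : Type u) where
  /-- first component -/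
  fst : Matrix (Fin 2) (Fin 2) F
  /-- second component -/
  snd : Matrix (Fin 2) (Fin 2) F

namespace Octonion

variable {F : Type u} [Field F]

instance : Zero (Octonion F) := ⟨⟨0, 0⟩⟩
instance : Add (Octonion F) := ⟨fun x y => ⟨x.fst + y.fst, x.snd + y.snd⟩⟩
instance : Neg (Octonion F) := ⟨fun x => ⟨-x.fst, -x.snd⟩⟩
instance : Sub (Octonion F) := ⟨fun x y => ⟨x.fst - y.fst, x.snd - y.snd⟩⟩
instance : SMul F (Octonion F) := ⟨fun t x => ⟨t • x.fst, t • x.snd⟩⟩

/-- The Cayley-Dickson product `(a,b)(c,d) = (a c + d' b, d a + b c')`, where `'` denotes the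
canonical involution of the algebra of 2 x 2 matrices, i.e. the adjugate. -/
instance : Mul (Octonion F) :=
  ⟨fun x y => ⟨x.fst * y.fst + y.snd.adjugate * x.snd, y.snd * x.fst + x.snd * y.fst.adjugate⟩⟩

/-- The trace `t(a,b) = tr a` of an octonion; it satisfies `x + x' = t(x) 1` for the canonical
involution `(a,b)' = (a',-b)`. -/
def trace (x : Octonion F) : F := x.fst.trace

@[simp] theorem zero_fst : (0 : Octonion F).fst = 0 := rfl
@[simp] theorem zero_snd : (0 : Octonion F).snd = 0 := rfl
@[simp] theorem add_fst (x y : Octonion F) : (x + y).fst = x.fst + y.fst := rfl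
@[simp] theorem add_snd (x y : Octonion F) : (x + y).snd = x.snd + y.snd := rfl
@[simp] theorem neg_fst (x : Octonion F) : (-x).fst = -x.fst := rfl
@[simp] theorem neg_snd (x : Octonion F) : (-x).snd = -x.snd := rfl
@[simp] theorem sub_fst (x y : Octonion F) : (x - y).fst = x.fst - y.fst := rfl
@[simp] theorem sub_snd (x y : Octonion F) : (x - y).snd = x.snd - y.snd := rfl
@[simp] theorem smul_fst (t : F) (x : Octonion F) : (t • x).fst = t • x.fst := rfl
@[simp] theorem smul_snd (t : F) (x : Octonion F) : (t • x).snd = t • x.snd := rfl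
@[simp] theorem mul_fst (x y : Octonion F) :
    (x * y).fst = x.fst * y.fst + y.snd.adjugate * x.snd := rfl
@[simp] theorem mul_snd (x y : Octonion F) :
    (x * y).snd = y.snd * x.fst + x.snd * y.fst.adjugate := rfl

theorem adj_add (a b : Matrix (Fin 2) (Fin 2) F) :
    (a + b).adjugate = a.adjugate + b.adjugate := by
  rw [Matrix.adjugate_fin_two, Matrix.adjugate_fin_two, Matrix.adjugate_fin_two]
  ext i j
  fin_cases i <;> fin_cases j <;> simp [add_comm]

/-- The octonions are alternative (left alternative law; not used below). -/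
theorem left_alternative (x y : Octonion F) : (x * x) * y = x * (x * y) := by
  obtain ⟨a, b⟩ := x
  obtain ⟨c, d⟩ := y
  rw [Matrix.eta_fin_two a, Matrix.eta_fin_two b, Matrix.eta_fin_two c, Matrix.eta_fin_two d]
  generalize a 0 0 = a1, a 0 1 = a2, a 1 0 = a3, a 1 1 = a4
  generalize b 0 0 = b1, b 0 1 = b2, b 1 0 = b3, b 1 1 = b4
  generalize c 0 0 = c1, c 0 1 = c2, c 1 0 = c3, c 1 1 = c4
  generalize d 0 0 = d1, d 0 1 = d2, d 1 0 = d3, d 1 1 = d4
  apply Octonion.ext
  · simp only [mul_fst, mul_snd, Matrix.adjugate_fin_two_of, Matrix.mul_fin_two, Matrix.of_add_of,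
      Matrix.add_cons, Matrix.head_cons, Matrix.tail_cons, Matrix.empty_add_empty]
    ext i j
    fin_cases i <;> fin_cases j <;> simp <;> ring
  · simp only [mul_fst, mul_snd, Matrix.adjugate_fin_two_of, Matrix.mul_fin_two, Matrix.of_add_of,
      Matrix.add_cons, Matrix.head_cons, Matrix.tail_cons, Matrix.empty_add_empty]
    ext i j
    fin_cases i <;> fin_cases j <;> simp <;> ring

end Octonion

/-! ### The algebra C7 -/

/-- The Malcev algebra `C7`: the octonions of trace zero, with the commutator as product. -/
@[ext]
structure C7Alg (F : Type u) [Field F] where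
  /-- the underlying octonion -/
  val : Octonion F
  /-- its trace is zero -/
  trace_eq : val.trace = 0

namespace C7Alg

variable {F : Type u} [Field F]

theorem trace_comm (x y : Octonion F) : (x * y - y * x).trace = 0 := by
  obtain ⟨a, b⟩ := x
  obtain ⟨c, d⟩ := y
  rw [Matrix.eta_fin_two a, Matrix.eta_fin_two b, Matrix.eta_fin_two c, Matrix.eta_fin_two d]
  simp only [Octonion.trace, Octonion.sub_fst, Octonion.mul_fst, Matrix.adjugate_fin_two_of,
    Matrix.mul_fin_two, Matrix.trace_sub, Matrix.trace_add, Matrix.trace_fin_two_of]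
  ring

instance : Zero (C7Alg F) := ⟨⟨0, by simp [Octonion.trace]⟩⟩
instance : Add (C7Alg F) := ⟨fun x y => ⟨x.val + y.val, by
  have h1 := x.trace_eq; have h2 := y.trace_eq
  simp only [Octonion.trace, Octonion.add_fst, Matrix.trace_add] at *
  rw [h1, h2, add_zero]⟩⟩
instance : Neg (C7Alg F) := ⟨fun x => ⟨-x.val, by
  have h1 := x.trace_eq
  simp only [Octonion.trace, Octonion.neg_fst, Matrix.trace_neg] at *
  rw [h1, neg_zero]⟩⟩
instance : SMul F (C7Alg F) := ⟨fun t x => ⟨t • x.val, by
  have h1 := x.trace_eq
  simp only [Octonion.trace, Octonion.smul_fst, Matrix.trace_smul] at *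
  rw [h1, smul_zero]⟩⟩

/-- The product of `C7` is the commutator `xy - yx` of octonions. -/
instance : Mul (C7Alg F) := ⟨fun x y => ⟨x.val * y.val - y.val * x.val, trace_comm _ _⟩⟩

@[simp] theorem zero_val : (0 : C7Alg F).val = 0 := rfl
@[simp] theorem add_val (x y : C7Alg F) : (x + y).val = x.val + y.val := rfl
@[simp] theorem neg_val (x : C7Alg F) : (-x).val = -x.val := rfl
@[simp] theorem smul_val (t : F) (x : C7Alg F) : (t • x).val = t • x.val := rfl
@[simp] theorem mul_val (x y : C7Alg F) : (x * y).val = x.val * y.val - y.val * x.val := rfl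

instance : NonUnitalNonAssocRing (C7Alg F) where
  add_assoc x y z := by ext <;> simp [add_assoc]
  zero_add x := by ext <;> simp
  add_zero x := by ext <;> simp
  add_comm x y := by ext <;> simp [add_comm]
  neg_add_cancel x := by ext <;> simp
  nsmul := nsmulRec
  zsmul := zsmulRec
  zero_mul x := by ext <;> simp
  mul_zero x := by ext <;> simp
  left_distrib x y z := by
    apply C7Alg.ext
    apply Octonion.ext
    · simp only [mul_val, add_val, Octonion.sub_fst, Octonion.add_fst, Octonion.add_snd,
        Octonion.mul_fst, Octonion.adj_add, mul_add, add_mul]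
      abel
    · simp only [mul_val, add_val, Octonion.sub_snd, Octonion.add_fst, Octonion.add_snd,
        Octonion.mul_snd, Octonion.adj_add, mul_add, add_mul]
      abel
  right_distrib x y z := by
    apply C7Alg.ext
    apply Octonion.ext
    · simp only [mul_val, add_val, Octonion.sub_fst, Octonion.add_fst, Octonion.add_snd,
        Octonion.mul_fst, Octonion.adj_add, mul_add, add_mul]
      abel
    · simp only [mul_val, add_val, Octonion.sub_snd, Octonion.add_fst, Octonion.add_snd,
        Octonion.mul_snd, Octonion.adj_add, mul_add, add_mul]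
      abel

instance : Module F (C7Alg F) where
  one_smul x := by ext <;> simp
  mul_smul s t x := by ext <;> simp [mul_assoc]
  smul_zero t := by ext <;> simp
  smul_add t x y := by ext <;> simp [mul_add]
  add_smul s t x := by ext <;> simp [add_mul]
  zero_smul x := by ext <;> simp

end C7Alg

/-! ### The free Malcev algebra -/

section

variable (F : Type u) [Field F] (X : Type v)

/-- The free Malcev algebra over `F` on the set `X`: the quotient of the free nonassociative
algebra by the algebra congruence generated by `aa ~ 0` and `J(a,b,ac) ~ J(a,b,c)a`. -/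
def FreeMalcevAlgebra : Type (max u v) := QAlg F (MalcevRel F X)

noncomputable instance : NonUnitalNonAssocRing (FreeMalcevAlgebra F X) :=
  (inferInstance : NonUnitalNonAssocRing (QAlg F (MalcevRel F X)))

noncomputable instance : Module F (FreeMalcevAlgebra F X) :=
  (inferInstance : Module F (QAlg F (MalcevRel F X)))

/-- The ideal of identities `T(C7)`: the elements of the free Malcev algebra which are mapped to
zero by every algebra homomorphism to `C7`. -/
def identitiesC7 : Set (FreeMalcevAlgebra F X) :=
  {f | ∀ φ : FreeMalcevAlgebra F X →ₙₐ[F] C7Alg F, φ f = 0}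

/-- Comparison with the other description of the ideal of identities of `C7`. -/
theorem mem_T7_of_mem_identitiesC7 (f : FreeMalcevAlgebra F X) (hf : f ∈ identitiesC7 F X) :
    (f : FreeMalcev F X) ∈ T7 F X := by
  intro φ hφ
  let ψ : FreeMalcevAlgebra F X →ₙₐ[F] C7Alg F :=
    { toFun := fun a => ⟨⟨(φ a).1.1, (φ a).1.2⟩, (φ a).2⟩
      map_smul' := fun t a => by
        have h := map_smul φ t a
        apply C7Alg.ext
        apply Octonion.ext
        · exact congrArg (fun z : C7 F => z.1.1) h
        · exact congrArg (fun z : C7 F => z.1.2) h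
      map_zero' := by
        have h := map_zero φ
        apply C7Alg.ext
        apply Octonion.ext
        · exact congrArg (fun z : C7 F => z.1.1) h
        · exact congrArg (fun z : C7 F => z.1.2) h
      map_add' := fun a b => by
        have h := map_add φ a b
        apply C7Alg.ext
        apply Octonion.ext
        · exact congrArg (fun z : C7 F => z.1.1) h
        · exact congrArg (fun z : C7 F => z.1.2) h
      map_mul' := fun a b => by
        have h := hφ a b
        apply C7Alg.ext
        apply Octonion.ext
        · exact congrArg (fun z : Oct F => z.1) h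
        · exact congrArg (fun z : Oct F => z.2) h }
  have h := hf ψ
  have h1 : (φ f).1.1 = 0 := congrArg (fun z : C7Alg F => z.val.fst) h
  have h2 : (φ f).1.2 = 0 := congrArg (fun z : C7Alg F => z.val.snd) h
  exact Subtype.ext (Prod.ext h1 h2)

end

end Pool.Agent.Hhelper8
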